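import Pool.Agent.H907R2.BTz

/-!
# Weak geodesics between Kähler metrics need not be strictly positive on slices

Negative answer to the question of strict positivity of the currents `ω + dd^c φ_τ` along a weak
geodesic. The manifold is a one-dimensional torus `X = ℂ / (ℤ p₁ + ℤ p₂)`, with
`ω = κ dd^c |z|²`; functions on `X` are doubly periodic functions on `ℂ`, and functions on
`X × A` are functions of `(z, τ)` which are doubly periodic in `z`.
All complex derivatives are written with real ones: `4 f_{z z̄}` is the Laplacian of `f`.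
-/

open MeasureTheory Set Filter
open scoped Topology ContDiff

namespace Pool.Agent.Results.MP_8d5978_gt.DegenerateSlice

/-- `∂_v ∂_w f (p)`, the second derivative of `f` at `p` in the real directions `v`, `w`. -/
noncomputable def dd {E : Type} [NormedAddCommGroup E] [NormedSpace ℝ E] (f : E → ℝ)
    (v w p : E) : ℝ := fderiv ℝ (fun q => fderiv ℝ f q w) p v

/-- The Laplacian on `ℂ`, that is `4 ∂²f/∂z∂z̄`. -/
noncomputable def lap (f : ℂ → ℝ) (z : ℂ) : ℝ := dd f 1 1 z + dd f Complex.I Complex.I z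

/-- The complex Hessian on `ℂ²` as a Hermitian form: `4 Σ f_{j k̄}(x) ξ_j ξ̄_k`. -/
noncomputable def hess (f : ℂ × ℂ → ℝ) (ξ x : ℂ × ℂ) : ℝ :=
  dd f ξ ξ x + dd f (Complex.I • ξ) (Complex.I • ξ) x

/-- `f` is a smooth function on the torus with `κ dd^c|z|² + dd^c f > 0`. -/
structure IsKahlerPotential (κ : ℝ) (p₁ p₂ : ℂ) (f : ℂ → ℝ) : Prop where
  smooth : ContDiff ℝ ∞ f
  periodic : ∀ z, f (z + p₁) = f z ∧ f (z + p₂) = f z
  positive : ∀ z, 0 < 4 * κ + lap f z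

/-- The annulus `a < |τ| < b`. -/
def Annulus (a b : ℝ) : Set ℂ := {τ | a < ‖τ‖ ∧ ‖τ‖ < b}

/-- `π^*ω + dd^c u ≥ 0` at the point `x`, for smooth `u`. -/
def SemiposAt (κ : ℝ) (u : ℂ × ℂ → ℝ) (x : ℂ × ℂ) : Prop :=
  ∀ ξ : ℂ × ℂ, 0 ≤ 4 * κ * ‖ξ.1‖ ^ 2 + hess u ξ x

/-- `16` times the determinant of the Hermitian matrix of `π^*ω + dd^c u`: the density, up to a
positive constant, of `(π^*ω + dd^c u)²` for smooth `u`. -/
noncomputable def MA (κ : ℝ) (u : ℂ × ℂ → ℝ) (x : ℂ × ℂ) : ℝ :=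
  (4 * κ + (dd u (1, 0) (1, 0) x + dd u (Complex.I, 0) (Complex.I, 0) x)) *
      (dd u (0, 1) (0, 1) x + dd u (0, Complex.I) (0, Complex.I) x) -
    (dd u (1, 0) (0, 1) x + dd u (Complex.I, 0) (0, Complex.I) x) ^ 2 -
    (dd u (1, 0) (0, Complex.I) x - dd u (Complex.I, 0) (0, 1) x) ^ 2

/-- `π^*ω + dd^c φ ≥ 0` on `ℂ × A` in the sense of currents. -/
def PositiveCurrent (κ : ℝ) (A : Set ℂ) (φ : ℂ × ℂ → ℝ) : Prop :=
  ∀ (ξ : ℂ × ℂ) (χ : ℂ × ℂ → ℝ), ContDiff ℝ ∞ χ → HasCompactSupport χ →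
    tsupport χ ⊆ univ ×ˢ A → (∀ x, 0 ≤ χ x) →
    0 ≤ ∫ x, (4 * κ * ‖ξ.1‖ ^ 2 * χ x + φ x * hess χ ξ x)

/-- `v j` are smooth on `V` with `π^*ω + dd^c (v j) ≥ 0`, and decrease pointwise to `φ` on `V`. -/
def DecreasingApprox (κ : ℝ) (V : Set (ℂ × ℂ)) (v : ℕ → ℂ × ℂ → ℝ) (φ : ℂ × ℂ → ℝ) : Prop :=
  (∀ j, ContDiffOn ℝ ∞ (v j) V ∧ ∀ x ∈ V, SemiposAt κ (v j) x) ∧
    ∀ x ∈ V, Antitone (fun j => v j x) ∧ Tendsto (fun j => v j x) atTop (𝓝 (φ x))

/-- `(π^*ω + dd^c φ)² = 0` on `ℂ × A` in the sense of Bedford and Taylor: smooth semipositive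
approximants decreasing to `φ` exist on `ℂ × A`, and on every open subset of `ℂ × A` the
Monge-Ampère measures of every such sequence converge weakly to zero. -/
def ZeroMA (κ : ℝ) (A : Set ℂ) (φ : ℂ × ℂ → ℝ) : Prop :=
  (∃ v : ℕ → ℂ × ℂ → ℝ, DecreasingApprox κ (univ ×ˢ A) v φ) ∧
    ∀ V : Set (ℂ × ℂ), IsOpen V → V ⊆ univ ×ˢ A →
      ∀ v : ℕ → ℂ × ℂ → ℝ, DecreasingApprox κ V v φ →
        ∀ χ : ℂ × ℂ → ℝ, ContDiff ℝ ∞ χ → HasCompactSupport χ → tsupport χ ⊆ V →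
          Tendsto (fun j => ∫ x, χ x * MA κ (v j) x) atTop (𝓝 0)

/-- `φ` is the weak geodesic over the annulus `a < |τ| < b` joining the Kähler potentials
`φ₁` (on `|τ| = a`) and `φ₂` (on `|τ| = b`). -/
structure IsWeakGeodesic (κ : ℝ) (p₁ p₂ : ℂ) (a b : ℝ) (φ₁ φ₂ : ℂ → ℝ) (φ : ℂ × ℂ → ℝ) : Prop where
  periodic : ∀ z τ, φ (z + p₁, τ) = φ (z, τ) ∧ φ (z + p₂, τ) = φ (z, τ)
  bounded : ∃ M : ℝ, ∀ z τ, a ≤ ‖τ‖ → ‖τ‖ ≤ b → |φ (z, τ)| ≤ M
  continuousOn : ContinuousOn φ (univ ×ˢ {τ | a ≤ ‖τ‖ ∧ ‖τ‖ ≤ b})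
  inner : ∀ z τ, ‖τ‖ = a → φ (z, τ) = φ₁ z
  outer : ∀ z τ, ‖τ‖ = b → φ (z, τ) = φ₂ z
  positive : PositiveCurrent κ (Annulus a b) φ
  zeroMA : ZeroMA κ (Annulus a b) φ

/-- `ω + dd^c u ≥ ε ω` on `X` in the sense of currents, for some `ε > 0`. -/
def StrictlyPositive (κ : ℝ) (u : ℂ → ℝ) : Prop :=
  ∃ ε : ℝ, 0 < ε ∧ ∀ χ : ℂ → ℝ, ContDiff ℝ ∞ χ → HasCompactSupport χ → (∀ z, 0 ≤ χ z) →
    ε * ∫ z, 4 * κ * χ z ≤ ∫ z, (4 * κ * χ z + u z * lap χ z)

open Pool.Agent.H907R2 in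
lemma pos_of_Sub {f : ℂ → ℝ} (hf : ContDiff ℝ ∞ f) (hs : Sub (3 / 4) f) (z : ℂ) :
    0 < 4 * kap + lap f z := by
  have h1 : ContDiff ℝ ∞ (fun ζ : ℂ => f (z + ζ)) := hf.comp (by fun_prop)
  have key := lap_of_submean (c := 3 / 4) h1.contDiffAt one_pos h1.continuous.continuousOn (by
    intro r hr _
    have h2 := hs z r hr
    have h3 := circleAverage_dir f z (r : ℂ)
    have e : ‖(r : ℂ)‖ = r := by simp [abs_of_pos hr]
    rw [e] at h3
    rw [h3] at h2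
    rw [add_zero]
    refine h2.trans (le_of_eq ?_)
    congr 2
    apply intervalIntegral.integral_congr
    intro θ _
    dsimp only
    rw [Complex.real_smul, mul_comm]
    rfl)
  rw [snd_line hf, snd_line hf] at key
  have e : lap f z = d1 1 (d1 1 f) z + d1 Complex.I (d1 Complex.I f) z := rfl
  rw [e, kap]
  norm_num at key ⊢
  linarith

open Pool.Agent.H907R2 in
lemma kahler0 : IsKahlerPotential kap per1 per2 phi0 where
  smooth := phi0_smooth
  periodic z := ⟨phi0_per1 z, phi0_per2 z⟩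
  positive := pos_of_Sub phi0_smooth (phi0_Sub le_rfl)

open Pool.Agent.H907R2 in
lemma kahler1 : IsKahlerPotential kap per1 per2 phi1 where
  smooth := phi1_smooth
  periodic z := ⟨phi1_per1 z, phi1_per2 z⟩
  positive := pos_of_Sub phi1_smooth (phi1_Sub le_rfl)

open Pool.Agent.H907R2 in
lemma semipos_iff (κ : ℝ) (u : ℂ × ℂ → ℝ) (x : ℂ × ℂ) : SemiposAt κ u x ↔ SP κ u x := by
  have e : ∀ ξ, hess u ξ x = D ξ (D ξ u) x + D (Complex.I • ξ) (D (Complex.I • ξ) u) x :=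
    fun ξ => rfl
  simp only [SemiposAt, SP, e, add_assoc]

open Pool.Agent.H907R2 in
lemma isWeakGeodesic {a b : ℝ} (ha : 0 < a) (hab : a < b) :
    IsWeakGeodesic kap per1 per2 a b phi0 phi1 (geo a b) := by
  obtain ⟨σ, O, h⟩ := exists_LogExt ha b
  have hb : 0 < b := ha.trans hab
  have l1 : 0 < Real.log (b / a) := Real.log_pos (by rw [lt_div_iff₀ ha]; linarith)
  refine ⟨?_, ?_, ?_, ?_, ?_, ?_, ?_⟩
  · intro z τ
    exact ⟨U_periodic phi0_per1 phi1_per1 _ _, U_periodic phi0_per2 phi1_per2 _ _⟩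
  · refine ⟨24, fun z τ h1 h2 => ?_⟩
    have l2 : 0 ≤ Real.log (‖τ‖ / a) := Real.log_nonneg (by rw [le_div_iff₀ ha]; linarith)
    have l3 : Real.log (‖τ‖ / a) ≤ Real.log (b / a) := by
      apply Real.log_le_log (div_pos (lt_of_lt_of_le ha h1) ha)
      gcongr
    exact U_abs (div_nonneg l2 l1.le) ((div_le_one l1).2 l3) z
  · apply (geo_contOn ha).mono
    apply Set.prod_mono_right
    intro τ hτ h0
    have h1 : a ≤ ‖τ‖ := hτ.1
    rw [h0, norm_zero] at h1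
    linarith
  · intro z τ hτ
    simp only [geo, sig, hτ]
    rw [div_self ha.ne', Real.log_one, zero_div, U_zero]
  · intro z τ hτ
    simp only [geo, sig, hτ]
    rw [div_self l1.ne', U_one]
  · intro ξ χ hχ hχc hχA hχ0
    exact geo_pos h ha ξ hχ hχc hχA hχ0
  · constructor
    · refine ⟨vseq σ, fun j => ⟨(vseq_sm h j).contDiffOn, fun x hx => ?_⟩, fun x hx => ?_⟩
      · rw [semipos_iff]; exact vseq_SP h ha j hx.2
      · exact ⟨vseq_anti h hx.2, vseq_lim h hx.2⟩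
    · intro V hV hVA v hv χ hχ hχc hχV
      exact BT_all h ha hab hV hVA (fun j => (hv.1 j).1)
        (fun j x hx => (semipos_iff _ _ _).1 ((hv.1 j).2 x hx)) (fun x hx => (hv.2 x hx).1)
        (fun x hx => (hv.2 x hx).2) hχ hχc hχV

open Pool.Agent.H907R2 in
lemma not_strict {a b : ℝ} (ha : 0 < a) (hab : a < b) {τ : ℂ} (hτ : ‖τ‖ ^ 2 = a * b) :
    ¬ StrictlyPositive kap (fun z => geo a b (z, τ)) := by
  rintro ⟨ε, hε, hs⟩
  have hb : 0 < b := ha.trans hab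
  have l1 : 0 < Real.log (b / a) := Real.log_pos (by rw [lt_div_iff₀ ha]; linarith)
  have hτ0 : 0 < ‖τ‖ := by
    rcases (norm_nonneg τ).eq_or_lt with h0 | h0
    · rw [← h0] at hτ
      have : 0 < a * b := by positivity
      nlinarith
    · exact h0
  have hhalf : sig a b τ = 1 / 2 := by
    have h1 : Real.log ((‖τ‖ / a) ^ 2) = Real.log (b / a) := by
      congr 1
      rw [div_pow, hτ]
      field_simp
    rw [Real.log_pow] at h1
    rw [sig, div_eq_iff l1.ne', ← h1]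
    push_cast
    ring
  obtain ⟨χ, hχ, hχc, hχ0, hlt⟩ := slice_not_strict hε
  have h2 := hs χ hχ hχc hχ0
  have e : ∫ z, (4 * kap * χ z + geo a b (z, τ) * lap χ z) =
      ∫ z, (4 * kap * χ z + U z (1 / 2) * La χ z) := by
    congr 1; ext z
    rw [geo, hhalf]
    rfl
  rw [e] at h2
  linarith

/-- There are a one-dimensional complex torus `X`, a Kähler form `ω` on `X` and two Kähler forms
in its class such that, over every annulus `a < |τ| < b`, the weak geodesic `φ` joining them has a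
slice for which `ω + dd^c φ_τ ≥ ε ω` fails for every `ε > 0`. -/
theorem result : ∃ (p₁ p₂ : ℂ) (κ : ℝ) (φ₁ φ₂ : ℂ → ℝ),
    LinearIndependent ℝ ![p₁, p₂] ∧ 0 < κ ∧
    IsKahlerPotential κ p₁ p₂ φ₁ ∧ IsKahlerPotential κ p₁ p₂ φ₂ ∧
    ∀ a b : ℝ, 0 < a → a < b → ∃ φ : ℂ × ℂ → ℝ, IsWeakGeodesic κ p₁ p₂ a b φ₁ φ₂ φ ∧
      ∃ τ ∈ Annulus a b, ¬ StrictlyPositive κ (fun z => φ (z, τ)) := by
  refine ⟨H907R2.per1, H907R2.per2, H907R2.kap, H907R2.phi0, H907R2.phi1, ?_, H907R2.kap_pos,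
    kahler0, kahler1, ?_⟩
  · rw [LinearIndependent.pair_iff]
    intro s t hst
    have h3 := H907R2.sqrt3_pos
    have hπ := Real.pi_pos
    have h1 := congrArg Complex.re hst
    have h2 := congrArg Complex.im hst
    simp only [H907R2.per1, H907R2.per2, Complex.add_re, Complex.add_im, Complex.real_smul,
      Complex.mul_re, Complex.mul_im, Complex.ofReal_re, Complex.ofReal_im, Complex.zero_re,
      Complex.zero_im, zero_mul, mul_zero, sub_zero, add_zero] at h1 h2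
    have hs : s = 0 := by
      rcases mul_eq_zero.1 h1 with h | h
      · exact h
      · exact absurd h (by positivity)
    refine ⟨hs, ?_⟩
    rw [hs, zero_mul, zero_add] at h2
    rcases mul_eq_zero.1 h2 with h | h
    · exact h
    · exact absurd h (by positivity)
  · intro a b ha hab
    have hb : 0 < b := ha.trans hab
    refine ⟨H907R2.geo a b, isWeakGeodesic ha hab, ((√(a * b) : ℝ) : ℂ), ?_, not_strict ha hab ?_⟩
    · have hn : ‖((√(a * b) : ℝ) : ℂ)‖ = √(a * b) := by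
        rw [Complex.norm_real, Real.norm_of_nonneg (Real.sqrt_nonneg _)]
      constructor
      · rw [hn]
        apply Real.lt_sqrt_of_sq_lt
        nlinarith
      · rw [hn, Real.sqrt_lt' hb]
        nlinarith
    · rw [Complex.norm_real, Real.norm_of_nonneg (Real.sqrt_nonneg _),
        Real.sq_sqrt (by positivity)]

end Pool.Agent.Results.MP_8d5978_gt.DegenerateSlice
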